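import Mathlib
import Pool.Agent.Lib.helper17.StrongD

set_option autoImplicit false

namespace Pool.Agent.Results.MP_e2e219_gt.Counter

open Set H17SD

/-- strong `d`-space; the specialization order `x ≤ y` is `x ∈ closure {y}` -/
def StrongD (X : Type) [TopologicalSpace X] : Prop :=
  T0Space X ∧ ∀ D : Set X, D.Nonempty →
    (∀ a ∈ D, ∀ b ∈ D, ∃ c ∈ D, a ∈ closure {c} ∧ b ∈ closure {c}) →
    ∀ (x : X) (U : Set X), IsOpen U →
      (⋂ d ∈ D, {z | d ∈ closure {z}}) ∩ {z | x ∈ closure {z}} ⊆ U →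
      ∃ d ∈ D, {z | d ∈ closure {z}} ∩ {z | x ∈ closure {z}} ⊆ U

theorem strongY : StrongD Y := by
  refine ⟨inferInstance, fun D h1 h2 x U hU h => ?_⟩
  simp only [mem_cl] at h2 h ⊢
  obtain ⟨d, hd, h3⟩ := strong D h1 h2 x U hU fun z a b => h ⟨mem_iInter₂.mpr a, b⟩
  exact ⟨d, hd, fun z hz => h3 z hz.1 hz.2⟩

theorem result : ∃ (I : Type) (X : I → Type) (_ : ∀ i, TopologicalSpace (X i)),
    Finite I ∧ (∀ i, StrongD (X i)) ∧ ¬ StrongD (∀ i, X i) := by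
  refine ⟨Bool, fun _ => Y, inferInstance, inferInstance, fun _ => strongY, fun h => ?_⟩
  obtain ⟨_, ⟨n, rfl⟩, h1⟩ := h.2 (range d) (range_nonempty _) (by
    rintro _ ⟨a, rfl⟩ _ ⟨b, rfl⟩
    exact ⟨_, ⟨a + b, rfl⟩, mem_cl_pi.mpr (d_le (by omega)), mem_cl_pi.mpr (d_le (by omega))⟩)
    x0 UU UU_open fun z hz => hyp z
      (fun n => mem_cl_pi.mp (mem_iInter₂.mp hz.1 _ ⟨n, rfl⟩)) (mem_cl_pi.mp hz.2)
  exact zz3 n (h1 ⟨mem_cl_pi.mpr (zz1 n), mem_cl_pi.mpr (zz2 n)⟩)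

end Pool.Agent.Results.MP_e2e219_gt.Counter
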